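import Mathlib

set_option autoImplicit false

namespace Run7.h881.CB

open Finset
open scoped Classical

lemma sum_pi_prod {I S : Type} [Fintype I] [Fintype S] (g : I → S → ℝ) :
    ∑ a : I → S, ∏ k, g k (a k) = ∏ k, ∑ s, g k s := by
  rw [Finset.prod_univ_sum, Fintype.piFinset_univ]

end Run7.h881.CB
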